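import Mathlib

set_option autoImplicit false

universe u

namespace Pool.Agent.Results.MP_ad9ced_gt.CanonicallySkulaFS

/-! ## Definitions -/

/-- The space `FS(P)` of all final subsets of the poset `P`, as a subspace of `{0,1}^P`
(a point `F` is the indicator function of a final subset). -/
def FS (P : Type u) [PartialOrder P] : Type u :=
  {F : P → Bool // ∀ x y : P, x ≤ y → F x = true → F y = true}

/-- `FS(P)` carries the topology of pointwise convergence, inherited from `{0,1}^P`
(the product of discrete two-point spaces). -/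
instance (P : Type u) [PartialOrder P] : TopologicalSpace (FS P) :=
  inferInstanceAs (TopologicalSpace {F : P → Bool // ∀ x y : P, x ≤ y → F x = true → F y = true})

/-- The Cantor-Bendixson derivatives: `X^(0) = X`, `X^(α+1)` is the set of non-isolated points of
(the subspace) `X^(α)`, and `X^(λ)` is the intersection of the `X^(γ)`, `γ < λ`, for limit `λ`. -/
noncomputable def cbDeriv (X : Type u) [TopologicalSpace X] (α : Ordinal.{u}) : Set X :=
  Ordinal.limitRecOn α Set.univ
    (fun _ A => {x | x ∈ A ∧ ∀ U : Set X, IsOpen U → x ∈ U → ∃ y ∈ U ∩ A, y ≠ x})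
    (fun l _ D => ⋂ γ : Ordinal.{u}, ⋂ h : γ < l, D γ h)

/-- `Y` is a unitary compact (scattered) space with last point `y`: the space is compact Hausdorff
and its last nonempty derivative is the single point `y`. -/
def UnitaryWithLastPoint (Y : Type u) [TopologicalSpace Y] (y : Y) : Prop :=
  CompactSpace Y ∧ T2Space Y ∧ ∃ α : Ordinal.{u}, cbDeriv Y α = {y} ∧ cbDeriv Y (α + 1) = ∅

/-- A clopen selector of `X`. -/
structure IsClopenSelector (X : Type u) [TopologicalSpace X] (U : X → Set X) : Prop where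
  isClopen : ∀ x, IsClopen (U x)
  mem_self : ∀ x, x ∈ U x
  notMem_or : ∀ x y, x ≠ y → x ∉ U y ∨ y ∉ U x
  subset_of_mem : ∀ x y, y ∈ U x → U y ⊆ U x

/-- `X` is canonically Skula: it is compact Hausdorff and admits a clopen selector such that every
`U x` is unitary with last point `x`. -/
def CanonicallySkula (X : Type u) [TopologicalSpace X] : Prop :=
  CompactSpace X ∧ T2Space X ∧ ∃ U : X → Set X, IsClopenSelector X U ∧
    ∀ (x : X) (hx : x ∈ U x), UnitaryWithLastPoint (U x) ⟨x, hx⟩

/-- `P` has finite width: it is the union of finitely many chains. -/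
def FiniteWidth (P : Type u) [PartialOrder P] : Prop :=
  ∃ (n : ℕ) (C : Fin n → Set P), (∀ i, IsChain (· ≤ ·) (C i)) ∧ (⋃ i, C i) = Set.univ

/-- All antichains of `P` are finite. -/
def NoInfiniteAntichain (P : Type u) [PartialOrder P] : Prop :=
  ∀ A : Set P, IsAntichain (· ≤ ·) A → A.Finite

/-- A poset of finite width has no infinite antichain. -/
lemma FiniteWidth.noInfiniteAntichain {P : Type u} [PartialOrder P] (h : FiniteWidth P) :
    NoInfiniteAntichain P := by
  obtain ⟨n, C, hC, hU⟩ := h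
  intro A hA
  have hcov : ∀ a : P, ∃ i, a ∈ C i := by
    intro a
    have : a ∈ ⋃ i, C i := by rw [hU]; exact Set.mem_univ a
    simpa using this
  choose c hc using hcov
  refine Set.Finite.of_injOn (f := c) (t := Set.univ) (fun a _ => Set.mem_univ _) ?_
    Set.finite_univ
  intro a ha b hb hab
  by_contra hne
  have hb' : b ∈ C (c a) := by rw [hab]; exact hc b
  rcases hC (c a) (hc a) hb' hne with h | h
  · exact hA ha hb hne h
  · exact hA hb ha (Ne.symm hne) h

/-! ## Cantor-Bendixson rank -/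

section CB

variable {X : Type u} [TopologicalSpace X]

lemma cbDeriv_zero : cbDeriv X 0 = Set.univ := by
  simp [cbDeriv]

lemma cbDeriv_add_one (α : Ordinal.{u}) :
    cbDeriv X (α + 1)
      = {x | x ∈ cbDeriv X α ∧ ∀ U : Set X, IsOpen U → x ∈ U → ∃ y ∈ U ∩ cbDeriv X α, y ≠ x} := by
  unfold cbDeriv
  rw [Ordinal.limitRecOn_add_one]

lemma cbDeriv_limit (l : Ordinal.{u}) (h : Order.IsSuccLimit l) :
    cbDeriv X l = ⋂ γ : Ordinal.{u}, ⋂ _ : γ < l, cbDeriv X γ := by
  unfold cbDeriv
  rw [Ordinal.limitRecOn_limit _ _ _ _ h]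

lemma cbDeriv_add_one_subset (α : Ordinal.{u}) : cbDeriv X (α + 1) ⊆ cbDeriv X α := by
  rw [cbDeriv_add_one]
  intro x hx
  exact hx.1

lemma cbDeriv_antitone : Antitone (cbDeriv X) := by
  intro α β
  induction β using Ordinal.limitRecOn with
  | zero =>
    intro h
    have : α = 0 := le_antisymm h bot_le
    rw [this]
  | add_one β ih =>
    intro h
    rcases h.lt_or_eq with h | h
    · exact (cbDeriv_add_one_subset β).trans (ih (Order.lt_add_one_iff.mp h))
    · rw [h]
  | limit β hβ ih =>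
    intro h
    rcases h.lt_or_eq with h | h
    · rw [cbDeriv_limit β hβ]
      exact Set.iInter₂_subset α h
    · rw [h]

lemma cbDeriv_isClosed (α : Ordinal.{u}) : IsClosed (cbDeriv X α) := by
  induction α using Ordinal.limitRecOn with
  | zero => rw [cbDeriv_zero]; exact isClosed_univ
  | add_one α ih =>
    rw [cbDeriv_add_one, ← isOpen_compl_iff, isOpen_iff_mem_nhds]
    intro x hx
    by_cases hxA : x ∈ cbDeriv X α
    · have : ∃ U : Set X, IsOpen U ∧ x ∈ U ∧ ∀ y ∈ U ∩ cbDeriv X α, y = x := by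
        by_contra hcon
        push Not at hcon
        exact hx ⟨hxA, hcon⟩
      obtain ⟨U, hU, hxU, hUA⟩ := this
      refine Filter.mem_of_superset (hU.mem_nhds hxU) ?_
      intro y hy hy'
      have hyx := hUA y ⟨hy, hy'.1⟩
      obtain ⟨z, hz, hzy⟩ := hy'.2 U hU hy
      exact hzy ((hUA z hz).trans hyx.symm)
    · refine Filter.mem_of_superset (ih.isOpen_compl.mem_nhds hxA) ?_
      intro y hy hy'
      exact hy hy'.1
  | limit α hα ih =>
    rw [cbDeriv_limit α hα]
    exact isClosed_iInter fun γ => isClosed_iInter fun h => ih γ h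

/-- Derivatives of an open subspace. -/
lemma cbDeriv_subtype (U : Set X) (hU : IsOpen U) (α : Ordinal.{u}) :
    cbDeriv U α = Subtype.val ⁻¹' (cbDeriv X α) := by
  induction α using Ordinal.limitRecOn with
  | zero => rw [cbDeriv_zero, cbDeriv_zero]; rfl
  | add_one α ih =>
    rw [cbDeriv_add_one, cbDeriv_add_one, ih]
    ext ⟨x, hx⟩
    constructor
    · rintro ⟨h1, h2⟩
      refine ⟨h1, ?_⟩
      intro V hV hxV
      obtain ⟨⟨y, hyU⟩, hy, hne⟩ := h2 (Subtype.val ⁻¹' V) (hV.preimage continuous_subtype_val) hxV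
      exact ⟨y, hy, fun h => hne (Subtype.ext h)⟩
    · rintro ⟨h1, h2⟩
      refine ⟨h1, ?_⟩
      intro V hV hxV
      obtain ⟨W, hW, rfl⟩ := isOpen_induced_iff.mp hV
      obtain ⟨y, hy, hne⟩ := h2 (W ∩ U) (hW.inter hU) ⟨hxV, hx⟩
      exact ⟨⟨y, hy.1.2⟩, ⟨hy.1.1, hy.2⟩, fun h => hne (congrArg Subtype.val h)⟩
  | limit α hα ih =>
    rw [cbDeriv_limit α hα, cbDeriv_limit α hα]
    ext x
    simp only [Set.mem_iInter, Set.mem_preimage]
    constructor
    · intro h γ hγ
      have := h γ hγ
      rw [ih γ hγ] at this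
      exact this
    · intro h γ hγ
      rw [ih γ hγ]
      exact h γ hγ

variable (X) in
/-- Scatteredness, in the form used here. -/
def Scat : Prop := ∀ x : X, ∃ α : Ordinal.{u}, x ∉ cbDeriv X α

/-- The Cantor-Bendixson rank. -/
noncomputable def rk (x : X) : Ordinal.{u} := sInf {α | x ∉ cbDeriv X (α + 1)}

lemma notMem_rk (hX : Scat X) (x : X) : x ∉ cbDeriv X (rk x + 1) := by
  have hne : {α : Ordinal.{u} | x ∉ cbDeriv X (α + 1)}.Nonempty := by
    obtain ⟨α, hα⟩ := hX x
    exact ⟨α, fun h => hα (cbDeriv_add_one_subset α h)⟩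
  exact csInf_mem hne

lemma mem_cbDeriv_iff (hX : Scat X) (x : X) (α : Ordinal.{u}) : x ∈ cbDeriv X α ↔ α ≤ rk x := by
  constructor
  · intro h
    by_contra hlt
    rw [not_le] at hlt
    exact notMem_rk hX x (cbDeriv_antitone (Order.add_one_le_of_lt hlt) h)
  · intro h
    have hlt : ∀ β < rk x, x ∈ cbDeriv X (β + 1) := by
      intro β hβ
      by_contra hcon
      exact absurd (csInf_le' (s := {α : Ordinal.{u} | x ∉ cbDeriv X (α + 1)}) hcon)
        (not_le.mpr hβ)
    apply cbDeriv_antitone h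
    rcases Ordinal.zero_or_succ_or_isSuccLimit (rk x) with h0 | ⟨β, hβ⟩ | hl
    · rw [h0, cbDeriv_zero]
      exact Set.mem_univ x
    · rw [← hβ]
      have := hlt β (by rw [← hβ]; exact Order.lt_succ β)
      rwa [← Order.succ_eq_add_one] at this
    · rw [cbDeriv_limit _ hl]
      simp only [Set.mem_iInter]
      intro γ hγ
      exact cbDeriv_add_one_subset γ (hlt γ hγ)

lemma exists_nhd_rk_lt (hX : Scat X) (x : X) :
    ∃ U : Set X, IsOpen U ∧ x ∈ U ∧ ∀ y ∈ U, y ≠ x → rk y < rk x := by
  have h := notMem_rk hX x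
  rw [cbDeriv_add_one] at h
  by_contra hcon
  push Not at hcon
  apply h
  refine ⟨(mem_cbDeriv_iff hX x _).mpr le_rfl, ?_⟩
  intro U hU hxU
  obtain ⟨y, hy, hne, hr⟩ := hcon U hU hxU
  exact ⟨y, ⟨hy, (mem_cbDeriv_iff hX y _).mpr hr⟩, hne⟩

lemma exists_of_lt_rk (hX : Scat X) (x : X) (β : Ordinal.{u}) (hβ : β < rk x) (U : Set X)
    (hU : IsOpen U) (hxU : x ∈ U) : ∃ y ∈ U, y ≠ x ∧ β ≤ rk y := by
  have h : x ∈ cbDeriv X (β + 1) := (mem_cbDeriv_iff hX x _).mpr (Order.add_one_le_of_lt hβ)
  rw [cbDeriv_add_one] at h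
  obtain ⟨y, hy, hne⟩ := h.2 U hU hxU
  exact ⟨y, hy.1, hne, (mem_cbDeriv_iff hX y _).mp hy.2⟩

end CB

/-! ## Hessenberg sum -/

/-- The relation of decreasing one entry, on pairs of ordinals. -/
def dec (p q : Ordinal.{u} × Ordinal.{u}) : Prop :=
  (p.1 < q.1 ∧ p.2 = q.2) ∨ (p.2 < q.2 ∧ p.1 = q.1)

lemma dec_wf : WellFounded (dec.{u}) := by
  apply Subrelation.wf (r := Prod.GameAdd (α := Ordinal.{u}) (β := Ordinal.{u}) (· < ·) (· < ·))
  · intro p q h
    exact Prod.gameAdd_iff.mpr h
  · exact WellFounded.prod_gameAdd Ordinal.lt_wf Ordinal.lt_wf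

instance dec_isWF : IsWellFounded (Ordinal.{u} × Ordinal.{u}) dec.{u} := ⟨dec_wf⟩

/-- The Hessenberg (natural) sum. -/
noncomputable def nsum (a b : Ordinal.{u}) : Ordinal.{u + 1} :=
  IsWellFounded.rank dec (a, b)

lemma nsum_lt_left {a a' b : Ordinal.{u}} (h : a' < a) : nsum a' b < nsum a b :=
  IsWellFounded.rank_lt_of_rel (r := dec) (Or.inl ⟨h, rfl⟩)

lemma nsum_lt_right {a b b' : Ordinal.{u}} (h : b' < b) : nsum a b' < nsum a b :=
  IsWellFounded.rank_lt_of_rel (r := dec) (Or.inr ⟨h, rfl⟩)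

lemma nsum_le_left {a a' : Ordinal.{u}} (b : Ordinal.{u}) (h : a' ≤ a) : nsum a' b ≤ nsum a b := by
  rcases h.lt_or_eq with h | h
  · exact (nsum_lt_left h).le
  · rw [h]

lemma nsum_le_right {b b' : Ordinal.{u}} (a : Ordinal.{u}) (h : b' ≤ b) :
    nsum a b' ≤ nsum a b := by
  rcases h.lt_or_eq with h | h
  · exact (nsum_lt_right h).le
  · rw [h]

lemma nsum_le_of {a b : Ordinal.{u}} {c : Ordinal.{u + 1}} (h1 : ∀ a' < a, nsum a' b < c)
    (h2 : ∀ b' < b, nsum a b' < c) : nsum a b ≤ c := by
  unfold nsum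
  rw [IsWellFounded.rank_eq]
  apply Ordinal.iSup_le
  rintro ⟨⟨p, q⟩, hpq⟩
  rw [Order.succ_le_iff]
  rcases hpq with ⟨h, h'⟩ | ⟨h, h'⟩
  · simp only at h h'
    subst h'
    exact h1 p h
  · simp only at h h'
    subst h'
    exact h2 q h

/-- Supermodularity of the rank, for separately continuous operations `m` and `j` such that
`x ↦ (m x y, j x y)` and `y ↦ (m x y, j x y)` are injective. -/
lemma rk_supermodular {X : Type u} [TopologicalSpace X] (hX : Scat X) (m j : X → X → X)
    (hm1 : ∀ y, Continuous fun x => m x y) (hm2 : ∀ x, Continuous fun y => m x y)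
    (hj1 : ∀ y, Continuous fun x => j x y) (hj2 : ∀ x, Continuous fun y => j x y)
    (hi1 : ∀ x x' y, m x y = m x' y → j x y = j x' y → x = x')
    (hi2 : ∀ x y y', m x y = m x y' → j x y = j x y' → y = y') (x y : X) :
    nsum (rk x) (rk y) ≤ nsum (rk (j x y)) (rk (m x y)) := by
  -- induction on the natural sum
  suffices H : ∀ c : Ordinal.{u + 1}, ∀ x y : X, nsum (rk x) (rk y) = c →
      nsum (rk x) (rk y) ≤ nsum (rk (j x y)) (rk (m x y)) from H _ x y rfl
  intro c
  induction c using WellFoundedLT.induction with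
  | ind c ih =>
    intro x y hc
    obtain ⟨U1, hU1, hmU1, hU1'⟩ := exists_nhd_rk_lt hX (m x y)
    obtain ⟨U2, hU2, hjU2, hU2'⟩ := exists_nhd_rk_lt hX (j x y)
    have hstrict : ∀ a b : X, a ∈ U1 → b ∈ U2 → ¬ (a = m x y ∧ b = j x y) →
        nsum (rk b) (rk a) < nsum (rk (j x y)) (rk (m x y)) := by
      intro a b ha hb hab
      by_cases h1 : a = m x y
      · have h2 : b ≠ j x y := fun h => hab ⟨h1, h⟩
        rw [h1]
        exact nsum_lt_left (hU2' b hb h2)
      · have h3 := hU1' a ha h1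
        have h4 : rk b ≤ rk (j x y) := by
          by_cases h2 : b = j x y
          · rw [h2]
          · exact (hU2' b hb h2).le
        exact lt_of_lt_of_le (nsum_lt_right h3) (nsum_le_left _ h4)
    apply nsum_le_of
    · intro a' ha'
      obtain ⟨U0, hU0, hxU0, hU0'⟩ := exists_nhd_rk_lt hX x
      obtain ⟨x', hx', hne, hr⟩ := exists_of_lt_rk hX x a' ha'
        (U0 ∩ ((fun x => m x y) ⁻¹' U1 ∩ (fun x => j x y) ⁻¹' U2))
        (hU0.inter ((hU1.preimage (hm1 y)).inter (hU2.preimage (hj1 y))))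
        ⟨hxU0, hmU1, hjU2⟩
      have hlt : rk x' < rk x := hU0' x' hx'.1 hne
      have h1 := ih (nsum (rk x') (rk y)) (by rw [← hc]; exact nsum_lt_left hlt) x' y rfl
      have h2 := hstrict (m x' y) (j x' y) hx'.2.1 hx'.2.2 (fun h => hne (hi1 x' x y h.1 h.2))
      exact lt_of_le_of_lt ((nsum_le_left _ hr).trans h1) h2
    · intro b' hb'
      obtain ⟨U0, hU0, hyU0, hU0'⟩ := exists_nhd_rk_lt hX y
      obtain ⟨y', hy', hne, hr⟩ := exists_of_lt_rk hX y b' hb'
        (U0 ∩ ((fun y => m x y) ⁻¹' U1 ∩ (fun y => j x y) ⁻¹' U2))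
        (hU0.inter ((hU1.preimage (hm2 x)).inter (hU2.preimage (hj2 x))))
        ⟨hyU0, hmU1, hjU2⟩
      have hlt : rk y' < rk y := hU0' y' hy'.1 hne
      have h1 := ih (nsum (rk x) (rk y')) (by rw [← hc]; exact nsum_lt_right hlt) x y' rfl
      have h2 := hstrict (m x y') (j x y') hy'.2.1 hy'.2.2 (fun h => hne (hi2 x y' y h.1 h.2))
      exact lt_of_le_of_lt ((nsum_le_right _ hr).trans h1) h2

/-! ## The space `FS(P)` -/

section FSP

variable {P : Type u} [PartialOrder P]

/-- Inclusion of final subsets. -/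
def Sub (F G : FS P) : Prop := ∀ x, F.1 x = true → G.1 x = true

lemma Sub.refl (F : FS P) : Sub F F := fun _ h => h

lemma Sub.trans {F G H : FS P} (h1 : Sub F G) (h2 : Sub G H) : Sub F H :=
  fun x h => h2 x (h1 x h)

lemma Sub.antisymm {F G : FS P} (h1 : Sub F G) (h2 : Sub G F) : F = G := by
  apply Subtype.ext
  funext x
  rw [Bool.eq_iff_iff]
  exact ⟨h1 x, h2 x⟩

/-- Intersection of final subsets. -/
def inter (F G : FS P) : FS P :=
  ⟨fun x => F.1 x && G.1 x, by
    intro x y hxy h
    rw [Bool.and_eq_true] at h ⊢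
    exact ⟨F.2 x y hxy h.1, G.2 x y hxy h.2⟩⟩

/-- Union of final subsets. -/
def union (F G : FS P) : FS P :=
  ⟨fun x => F.1 x || G.1 x, by
    intro x y hxy h
    rw [Bool.or_eq_true] at h ⊢
    exact h.imp (F.2 x y hxy) (G.2 x y hxy)⟩

lemma inter_sub_left (F G : FS P) : Sub (inter F G) F := by
  intro x h
  simp only [inter, Bool.and_eq_true] at h
  exact h.1

lemma inter_sub_right (F G : FS P) : Sub (inter F G) G := by
  intro x h
  simp only [inter, Bool.and_eq_true] at h
  exact h.2

lemma sub_inter {F G H : FS P} (h1 : Sub H F) (h2 : Sub H G) : Sub H (inter F G) := by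
  intro x h
  simp only [inter, Bool.and_eq_true]
  exact ⟨h1 x h, h2 x h⟩

lemma sub_union_left (F G : FS P) : Sub F (union F G) := by
  intro x h
  simp only [union, Bool.or_eq_true]
  exact Or.inl h

lemma sub_union_right (F G : FS P) : Sub G (union F G) := by
  intro x h
  simp only [union, Bool.or_eq_true]
  exact Or.inr h

lemma union_sub {F G H : FS P} (h1 : Sub F H) (h2 : Sub G H) : Sub (union F G) H := by
  intro x h
  simp only [union, Bool.or_eq_true] at h
  exact h.elim (h1 x) (h2 x)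

lemma continuous_eval (x : P) : Continuous fun F : FS P => F.1 x :=
  (continuous_apply x).comp continuous_subtype_val

lemma isClopen_mem (x : P) : IsClopen {F : FS P | F.1 x = true} := by
  have : {F : FS P | F.1 x = true} = (fun F : FS P => F.1 x) ⁻¹' {true} := rfl
  rw [this]
  exact (isClopen_discrete _).preimage (continuous_eval x)

lemma continuous_to {Y : Type u} [TopologicalSpace Y] (f : Y → FS P)
    (h : ∀ x, Continuous fun y => (f y).1 x) : Continuous f :=
  Continuous.subtype_mk (continuous_pi h) _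

lemma continuous_inter_left (G : FS P) : Continuous fun F : FS P => inter F G :=
  continuous_to _ fun x =>
    (continuous_of_discreteTopology (f := fun b : Bool => b && G.1 x)).comp (continuous_eval x)

lemma continuous_inter_right (F : FS P) : Continuous fun G : FS P => inter F G :=
  continuous_to _ fun x =>
    (continuous_of_discreteTopology (f := fun b : Bool => F.1 x && b)).comp (continuous_eval x)

lemma continuous_union_left (G : FS P) : Continuous fun F : FS P => union F G :=
  continuous_to _ fun x =>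
    (continuous_of_discreteTopology (f := fun b : Bool => b || G.1 x)).comp (continuous_eval x)

lemma continuous_union_right (F : FS P) : Continuous fun G : FS P => union F G :=
  continuous_to _ fun x =>
    (continuous_of_discreteTopology (f := fun b : Bool => F.1 x || b)).comp (continuous_eval x)

lemma inj_left (F F' G : FS P) (h1 : inter F G = inter F' G) (h2 : union F G = union F' G) :
    F = F' := by
  apply Subtype.ext
  funext x
  have e1 : (F.1 x && G.1 x) = (F'.1 x && G.1 x) := congrFun (congrArg Subtype.val h1) x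
  have e2 : (F.1 x || G.1 x) = (F'.1 x || G.1 x) := congrFun (congrArg Subtype.val h2) x
  revert e1 e2
  cases F.1 x <;> cases F'.1 x <;> cases G.1 x <;> simp

lemma inj_right (F G G' : FS P) (h1 : inter F G = inter F G') (h2 : union F G = union F G') :
    G = G' := by
  apply Subtype.ext
  funext x
  have e1 : (F.1 x && G.1 x) = (F.1 x && G'.1 x) := congrFun (congrArg Subtype.val h1) x
  have e2 : (F.1 x || G.1 x) = (F.1 x || G'.1 x) := congrFun (congrArg Subtype.val h2) x
  revert e1 e2
  cases F.1 x <;> cases G.1 x <;> cases G'.1 x <;> simp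

instance : T2Space (FS P) :=
  inferInstanceAs (T2Space {F : P → Bool // ∀ x y : P, x ≤ y → F x = true → F y = true})

instance : CompactSpace (FS P) := by
  have hcl : IsClosed {F : P → Bool | ∀ x y : P, x ≤ y → F x = true → F y = true} := by
    have : {F : P → Bool | ∀ x y : P, x ≤ y → F x = true → F y = true}
        = ⋂ x : P, ⋂ y : P, ⋂ _ : x ≤ y, ({F | F x = false} ∪ {F | F y = true}) := by
      ext F
      simp only [Set.mem_ofPred_eq, Set.mem_iInter, Set.mem_union]
      constructor
      · intro h x y hxy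
        cases hx : F x
        · exact Or.inl rfl
        · exact Or.inr (h x y hxy hx)
      · intro h x y hxy hx
        rcases h x y hxy with h' | h'
        · rw [hx] at h'; exact absurd h' (by simp)
        · exact h'
    rw [this]
    refine isClosed_iInter fun x => isClosed_iInter fun y => isClosed_iInter fun _ => ?_
    apply IsClosed.union
    · have h : IsClosed ((fun F : P → Bool => F x) ⁻¹' {false}) :=
        (isClosed_discrete _).preimage (continuous_apply x)
      exact h
    · have h : IsClosed ((fun F : P → Bool => F y) ⁻¹' {true}) :=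
        (isClosed_discrete _).preimage (continuous_apply y)
      exact h
  exact isCompact_iff_compactSpace.mp hcl.isCompact

variable (hwf : WellFounded ((· < ·) : P → P → Prop))
  (hanti : ∀ A : Set P, IsAntichain (· ≤ ·) A → A.Finite)

include hwf hanti

/-- Every final subset is generated by a finite set. -/
lemma finite_gen (F : FS P) :
    ∃ A : Set P, A.Finite ∧ (∀ a ∈ A, F.1 a = true) ∧ ∀ x, F.1 x = true → ∃ a ∈ A, a ≤ x := by
  refine ⟨{a | F.1 a = true ∧ ∀ b, F.1 b = true → ¬ b < a}, ?_, fun a ha => ha.1, ?_⟩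
  · apply hanti
    intro a ha b hb hne hab
    exact hb.2 a ha.1 (lt_of_le_of_ne hab hne)
  · intro x hx
    obtain ⟨a, ha, hmin⟩ := hwf.has_min {y | F.1 y = true ∧ y ≤ x} ⟨x, hx, le_rfl⟩
    refine ⟨a, ⟨ha.1, ?_⟩, ha.2⟩
    intro b hb hlt
    exact hmin b ⟨hb, hlt.le.trans ha.2⟩ hlt

lemma isClopen_sub (F : FS P) : IsClopen {G : FS P | Sub F G} := by
  obtain ⟨A, hA, hAF, hgen⟩ := finite_gen hwf hanti F
  have : {G : FS P | Sub F G} = ⋂ a ∈ A, {G : FS P | G.1 a = true} := by
    ext G
    simp only [Set.mem_ofPred_eq, Set.mem_iInter]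
    constructor
    · intro h a ha
      exact h a (hAF a ha)
    · intro h x hx
      obtain ⟨a, ha, hax⟩ := hgen x hx
      exact G.2 a x hax (h a ha)
  rw [this]
  exact hA.isClopen_biInter fun a _ => isClopen_mem a

/-- Proper inclusion, read backwards, is well-founded. -/
lemma wf_sup : WellFounded fun F G : FS P => Sub G F ∧ ¬ Sub F G := by
  have hwqo : WellQuasiOrderedLE P := wellQuasiOrderedLE_iff.mpr ⟨⟨hwf⟩, hanti⟩
  rw [wellFounded_iff_isEmpty_descending_chain]
  refine ⟨?_⟩
  rintro ⟨f, hf⟩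
  have h1 : ∀ n, ∃ x, (f (n + 1)).1 x = true ∧ ¬ (f n).1 x = true := by
    intro n
    have := (hf n).2
    simp only [Sub] at this
    push Not at this
    exact this
  have hmono : ∀ m n, m ≤ n → Sub (f m) (f n) := by
    intro m n hmn
    induction n, hmn using Nat.le_induction with
    | base => exact Sub.refl _
    | succ n _ ih => exact ih.trans (hf n).1
  choose x hx hx' using h1
  obtain ⟨i, j, hij, hle⟩ := wellQuasiOrdered_le x
  apply hx' j
  exact (f j).2 _ _ hle (hmono (i + 1) j hij _ (hx i))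

lemma scat : Scat (FS P) := by
  intro F
  induction F using (wf_sup hwf hanti).induction with
  | _ F ih =>
    choose! α hα using ih
    refine ⟨(⨆ G : {G : FS P // Sub F G ∧ ¬ Sub G F}, α G.1) + 1, ?_⟩
    rw [cbDeriv_add_one]
    rintro ⟨h1, h2⟩
    obtain ⟨G, hG, hne⟩ := h2 _ (isClopen_sub hwf hanti F).isOpen (Sub.refl F)
    have hGF : ¬ Sub G F := fun h => hne (Sub.antisymm h hG.1)
    apply hα G ⟨hG.1, hGF⟩
    refine cbDeriv_antitone ?_ hG.2
    exact Ordinal.le_iSup (fun G : {G : FS P // Sub F G ∧ ¬ Sub G F} => α G.1) ⟨G, hG.1, hGF⟩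

/-- The selector: `G ∈ sel F` iff `G ⊇ F` and `G` contains no `M ⊋ F` with `rk F ≤ rk M`. -/
def sel (F : FS P) : Set (FS P) :=
  {G | Sub F G ∧ ∀ M : FS P, Sub F M → ¬ Sub M F → rk F ≤ rk M → ¬ Sub M G}

omit hwf hanti in
lemma mem_sel_self (F : FS P) : F ∈ sel F :=
  ⟨Sub.refl F, fun _ _ h _ h' => h h'⟩

lemma isClopen_sel (F : FS P) : IsClopen (sel F) := by
  have hS := scat hwf hanti
  obtain ⟨O, hO, hFO, hO'⟩ := exists_nhd_rk_lt hS F
  -- the compact set `Z`
  let Z : Set (FS P) := ({M | Sub F M} ∩ cbDeriv (FS P) (rk F)) ∩ Oᶜ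
  have hZc : IsClosed Z :=
    ((isClopen_sub hwf hanti F).isClosed.inter (cbDeriv_isClosed _)).inter hO.isClosed_compl
  have hZ : ∀ M, M ∈ Z ↔ (Sub F M ∧ ¬ Sub M F ∧ rk F ≤ rk M) := by
    intro M
    constructor
    · rintro ⟨⟨h1, h2⟩, h3⟩
      refine ⟨h1, ?_, (mem_cbDeriv_iff hS M _).mp h2⟩
      intro h4
      apply h3
      rw [Sub.antisymm h4 h1]
      exact hFO
    · rintro ⟨h1, h2, h3⟩
      refine ⟨⟨h1, (mem_cbDeriv_iff hS M _).mpr h3⟩, ?_⟩
      intro h4
      have hne : M ≠ F := fun h => h2 (by rw [h]; exact Sub.refl F)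
      exact absurd (hO' M h4 hne) (not_lt.mpr h3)
  obtain ⟨t, ht, htfin, hcov⟩ := hZc.isCompact.elim_finite_subcover_image (b := Z)
    (c := fun M : FS P => {G : FS P | Sub M G})
    (fun M _ => (isClopen_sub hwf hanti M).isOpen)
    (fun M hM => Set.mem_biUnion hM (Sub.refl M))
  have hsel : sel F = {G | Sub F G} ∩ (⋃ M ∈ t, {G : FS P | Sub M G})ᶜ := by
    ext G
    constructor
    · rintro ⟨h1, h2⟩
      refine ⟨h1, ?_⟩
      intro h3
      simp only [Set.mem_iUnion] at h3
      obtain ⟨M, hMt, hMG⟩ := h3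
      obtain ⟨a, b, c⟩ := (hZ M).mp (ht hMt)
      exact h2 M a b c hMG
    · rintro ⟨h1, h2⟩
      refine ⟨h1, ?_⟩
      intro M a b c hMG
      apply h2
      have h3 := hcov ((hZ M).mpr ⟨a, b, c⟩)
      simp only [Set.mem_iUnion] at h3 ⊢
      obtain ⟨N, hNt, hNM⟩ := h3
      exact ⟨N, hNt, Sub.trans hNM hMG⟩
  rw [hsel]
  exact (isClopen_sub hwf hanti F).inter
    (htfin.isClopen_biUnion fun M _ => isClopen_sub hwf hanti M).compl

lemma sel_trans (F G : FS P) (hG : G ∈ sel F) : sel G ⊆ sel F := by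
  have hS := scat hwf hanti
  rintro H ⟨h1, h2⟩
  refine ⟨Sub.trans hG.1 h1, ?_⟩
  intro M hFM hMF hr hMH
  have hsup := rk_supermodular hS inter union continuous_inter_left continuous_inter_right
    continuous_union_left continuous_union_right inj_left inj_right G M
  have hMG : ¬ Sub M G := fun h => hG.2 M hFM hMF hr h
  -- `rk (G ∩ M) ≤ rk M`
  have h3 : rk (inter G M) ≤ rk M := by
    by_cases hF : Sub (inter G M) F
    · rw [Sub.antisymm hF (sub_inter hG.1 hFM)]
      exact hr
    · by_contra hlt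
      rw [not_le] at hlt
      exact hG.2 (inter G M) (sub_inter hG.1 hFM) hF (hr.trans hlt.le) (inter_sub_left G M)
  have h4 : rk G ≤ rk (union G M) := by
    by_contra hlt
    rw [not_le] at hlt
    have h5 : nsum (rk (union G M)) (rk (inter G M)) < nsum (rk G) (rk M) :=
      lt_of_le_of_lt (nsum_le_right _ h3) (nsum_lt_left hlt)
    exact absurd hsup (not_le.mpr h5)
  refine h2 (union G M) (sub_union_left G M) ?_ h4 (union_sub h1 hMH)
  intro h
  exact hMG (Sub.trans (sub_union_right G M) h)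

lemma sel_unitary (F : FS P) (hF : F ∈ sel F) : UnitaryWithLastPoint (sel F) ⟨F, hF⟩ := by
  have hS := scat hwf hanti
  have hcl := isClopen_sel hwf hanti F
  refine ⟨isCompact_iff_compactSpace.mp hcl.isClosed.isCompact, inferInstance, rk F, ?_, ?_⟩
  · rw [cbDeriv_subtype _ hcl.isOpen]
    ext ⟨G, hG⟩
    simp only [Set.mem_preimage, Set.mem_singleton_iff, Subtype.mk.injEq]
    rw [mem_cbDeriv_iff hS]
    constructor
    · intro h
      by_contra hne
      exact hG.2 G hG.1 (fun h' => hne (Sub.antisymm h' hG.1)) h (Sub.refl G)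
    · intro h
      rw [h]
  · rw [cbDeriv_subtype _ hcl.isOpen]
    ext ⟨G, hG⟩
    simp only [Set.mem_preimage, Set.mem_empty_iff_false, iff_false]
    rw [mem_cbDeriv_iff hS]
    intro h
    have h' : rk F < rk G := lt_of_lt_of_le (Order.lt_add_one_iff.mpr le_rfl) h
    have hne : G ≠ F := fun h => by rw [h] at h'; exact lt_irrefl _ h'
    exact hG.2 G hG.1 (fun h'' => hne (Sub.antisymm h'' hG.1)) h'.le (Sub.refl G)

end FSP

/-- For every well-founded partially ordered set `P` of finite width, and more generally for every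
well-founded `P` without infinite antichains, the space `FS(P)` is canonically Skula. -/
theorem result (P : Type u) [PartialOrder P]
    (hwf : WellFounded ((· < ·) : P → P → Prop))
    (hP : FiniteWidth P ∨ NoInfiniteAntichain P) :
    CanonicallySkula (FS P) := by
  have hanti : ∀ A : Set P, IsAntichain (· ≤ ·) A → A.Finite :=
    hP.elim FiniteWidth.noInfiniteAntichain id
  refine ⟨inferInstance, inferInstance, sel, ?_, fun F hF => sel_unitary hwf hanti F hF⟩
  refine ⟨isClopen_sel hwf hanti, mem_sel_self, ?_, sel_trans hwf hanti⟩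
  intro F G hne
  by_contra hcon
  push Not at hcon
  exact hne (Sub.antisymm hcon.2.1 hcon.1.1)

end Pool.Agent.Results.MP_ad9ced_gt.CanonicallySkulaFS
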